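import Pool.Agent.Y248.FD.Stm
import Pool.Agent.Y363.FC.SL

set_option autoImplicit false

/-! # Simple bounds for the energies (job Y248-FD BS of helper248) -/

namespace Pool.Agent.Y488.FD

open MeasureTheory Set Metric Complex Filter
open scoped ENNReal RealInnerProductSpace Topology FourierTransform
open Pool.Agent.H789R2.FR (E sg T)
open Pool.Agent.H438R2.RZ (Bump)
open Pool.Agent.Y248.BA (mu Kr Tp mu_bdd mu_supp mu_cont ball_vol)
open Pool.Agent.Y248.FB Pool.Agent.Y248.FC Pool.Agent.Y248.FD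
open Pool.Agent.Y363.FC (ee es es_fun es_mp es_norm es_cont es_le1 es_le2)

theorem pow_diff (m : ℕ) (hm : 2 ≤ m) (x y : ℝ) (hy : 0 ≤ y) (hyx : y ≤ x) (hx : x ≤ 1) :
    x ^ m - y ^ m ≤ m * (x ^ 2 - y ^ 2) := by
  have hxy : 0 ≤ x ^ 2 - y ^ 2 := by nlinarith
  induction m, hm using Nat.le_induction with
  | base => push_cast; linarith
  | succ m hm ih =>
    have h1 : x ^ (m + 1) - y ^ (m + 1) = x * (x ^ m - y ^ m) + y ^ m * (x - y) := by ring
    have h2 : 0 ≤ x ^ m - y ^ m := sub_nonneg.mpr (pow_le_pow_left₀ hy hyx m)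
    have h3 : y ^ m ≤ y := by
      calc y ^ m ≤ y ^ 1 := pow_le_pow_of_le_one hy (hyx.trans hx) (by omega)
        _ = y := pow_one y
    have h4 : x * (x ^ m - y ^ m) ≤ x ^ m - y ^ m := mul_le_of_le_one_left h2 hx
    have h5 : y ^ m * (x - y) ≤ y * (x - y) :=
      mul_le_mul_of_nonneg_right h3 (sub_nonneg.mpr hyx)
    have h6 : y * (x - y) ≤ x ^ 2 - y ^ 2 := by nlinarith
    rw [h1]
    push_cast
    linarith

/-- volume of shells in dimension at least two -/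
theorem shell (m : ℕ) (hm : 2 ≤ m) : ∃ V : ℝ, 0 < V ∧ ∀ s δ : ℝ, s ≤ 1 → 0 ≤ δ →
    (volume : Measure (E m)) {x : E m | s - δ ≤ ‖x‖ ^ 2 ∧ ‖x‖ ^ 2 ≤ s} ≤
      ENNReal.ofReal (V * δ) := by
  obtain ⟨V, hV, hb⟩ := ball_vol m
  have hm1 : (1 : ℝ) ≤ m := by exact_mod_cast (by omega : 1 ≤ m)
  refine ⟨V * m, by positivity, fun s δ hs hδ => ?_⟩
  rcases lt_or_ge s 0 with h0 | h0
  · have : {x : E m | s - δ ≤ ‖x‖ ^ 2 ∧ ‖x‖ ^ 2 ≤ s} = ∅ := by
      ext x
      simp only [mem_ofPred_eq, mem_empty_iff_false, iff_false, not_and, not_le]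
      intro _
      nlinarith [sq_nonneg ‖x‖]
    rw [this, measure_empty]
    exact zero_le
  · have hx1 : √s ≤ 1 := Real.sqrt_le_one.mpr hs
    rcases le_or_gt (s - δ) 0 with h1 | h1
    · refine (measure_mono (t := closedBall 0 (√s)) ?_).trans ?_
      · intro x hx
        rw [mem_closedBall_zero_iff]
        exact Real.le_sqrt_of_sq_le hx.2
      · rw [hb 0 _ (Real.sqrt_nonneg s)]
        apply ENNReal.ofReal_le_ofReal
        have h2 : √s ^ m ≤ √s ^ 2 := pow_le_pow_of_le_one (Real.sqrt_nonneg s) hx1 hm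
        rw [Real.sq_sqrt h0] at h2
        calc V * √s ^ m ≤ V * s := mul_le_mul_of_nonneg_left h2 hV.le
          _ ≤ V * δ := mul_le_mul_of_nonneg_left (by linarith) hV.le
          _ ≤ V * m * δ := by
            rw [mul_assoc]
            exact mul_le_mul_of_nonneg_left (le_mul_of_one_le_left hδ hm1) hV.le
    · have hy0 : 0 < √(s - δ) := Real.sqrt_pos.mpr h1
      have hyx : √(s - δ) ≤ √s := Real.sqrt_le_sqrt (by linarith)
      refine (measure_mono (t := closedBall 0 (√s) \ ball 0 (√(s - δ))) ?_).trans ?_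
      · intro x hx
        refine ⟨?_, ?_⟩
        · rw [mem_closedBall_zero_iff]
          exact Real.le_sqrt_of_sq_le hx.2
        · rw [mem_ball_zero_iff, not_lt]
          exact Real.sqrt_le_iff.mpr ⟨norm_nonneg _, hx.1⟩
      · rw [measure_sdiff (ball_subset_closedBall.trans (closedBall_subset_closedBall hyx))
          measurableSet_ball.nullMeasurableSet measure_ball_lt_top.ne]
        have hbb : (volume : Measure (E m)) (ball 0 (√(s - δ))) =
            ENNReal.ofReal (V * √(s - δ) ^ m) := by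
          rw [Measure.addHaar_ball_of_pos _ _ hy0,
            ← Measure.addHaar_closedBall _ (0 : E m) hy0.le, hb 0 _ hy0.le]
        rw [hb 0 _ (Real.sqrt_nonneg s), hbb, ← ENNReal.ofReal_sub _ (by positivity)]
        apply ENNReal.ofReal_le_ofReal
        have h2 := pow_diff m hm (√s) (√(s - δ)) hy0.le hyx hx1
        rw [Real.sq_sqrt h0, Real.sq_sqrt h1.le] at h2
        have h3 := mul_le_mul_of_nonneg_left h2 hV.le
        have : s - (s - δ) = δ := by ring
        rw [this] at h3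
        linarith

theorem pr_es {m k : ℕ} (a : E m) (b : E k) : pr m (es m k (a, b)) = b := by
  rw [es_fun]
  unfold pr
  exact congrArg Prod.snd ((ee m k).apply_symm_apply (a, b))

theorem pr_cont (m : ℕ) {k : ℕ} : Continuous (fun x : E (m + k) => pr m x) := by
  unfold pr
  fun_prop

/-- volume of the part of a shell close to the equator -/
theorem slab (m : ℕ) (hm : 2 ≤ m) : ∃ V : ℝ, 0 < V ∧ ∀ δ l : ℝ, 0 ≤ δ → 0 ≤ l →
    (volume : Measure (E (m + 1))) {ξ : E (m + 1) | 1 - δ ≤ ‖ξ‖ ^ 2 ∧ ‖ξ‖ ^ 2 ≤ 1 ∧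
      ‖pr m ξ‖ ≤ 2 * l} ≤ ENNReal.ofReal (V * (δ * l)) := by
  obtain ⟨V1, hV1, h1⟩ := shell m hm
  obtain ⟨V2, hV2, h2⟩ := ball_vol 1
  refine ⟨V1 * (V2 * 2), by positivity, fun δ l hδ hl => ?_⟩
  set S : Set (E (m + 1)) := {ξ : E (m + 1) | 1 - δ ≤ ‖ξ‖ ^ 2 ∧ ‖ξ‖ ^ 2 ≤ 1 ∧
      ‖pr m ξ‖ ≤ 2 * l} with hS
  have hSc : IsClosed S := by
    have hp : Continuous (fun ξ : E (m + 1) => ‖pr m ξ‖) := (pr_cont m).norm
    have hn : Continuous (fun ξ : E (m + 1) => ‖ξ‖ ^ 2) := continuous_norm.pow 2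
    exact (isClosed_le continuous_const hn).inter
      ((isClosed_le hn continuous_const).inter (isClosed_le hp continuous_const))
  have hSm : MeasurableSet S := hSc.measurableSet
  rw [← (es_mp (m := m) (k := 1)).measure_preimage hSm.nullMeasurableSet,
    Measure.volume_eq_prod, Measure.prod_apply_symm (es_cont.measurable hSm)]
  calc ∫⁻ y : E 1, (volume : Measure (E m)) ((fun x => (x, y)) ⁻¹' (es m 1 ⁻¹' S))
      ≤ ∫⁻ y : E 1, (closedBall (0 : E 1) (2 * l)).indicator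
          (fun _ => ENNReal.ofReal (V1 * δ)) y := by
        apply lintegral_mono
        intro y
        by_cases hy : y ∈ closedBall (0 : E 1) (2 * l)
        · rw [indicator_of_mem hy]
          refine (measure_mono (t := {x : E m | (1 - ‖y‖ ^ 2) - δ ≤ ‖x‖ ^ 2 ∧
            ‖x‖ ^ 2 ≤ 1 - ‖y‖ ^ 2}) ?_).trans (h1 _ _ (by nlinarith [sq_nonneg ‖y‖]) hδ)
          intro x hx
          have hx' : es m 1 (x, y) ∈ S := hx
          obtain ⟨h3, h4, -⟩ := hx'
          rw [es_norm] at h3 h4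
          exact ⟨by linarith, by linarith⟩
        · rw [indicator_of_notMem hy]
          have : (fun x : E m => (x, y)) ⁻¹' (es m 1 ⁻¹' S) = ∅ := by
            ext x
            simp only [mem_preimage, mem_empty_iff_false, iff_false]
            intro hx
            obtain ⟨-, -, h5⟩ := hx
            rw [pr_es] at h5
            exact hy (mem_closedBall_zero_iff.mpr h5)
          show (volume : Measure (E m)) ((fun x => (x, y)) ⁻¹' (es m 1 ⁻¹' S)) ≤ 0
          rw [this, measure_empty]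
    _ = ENNReal.ofReal (V1 * δ) * ENNReal.ofReal (V2 * (2 * l) ^ 1) := by
        rw [lintegral_indicator_const measurableSet_closedBall, h2 0 _ (by positivity)]
    _ = ENNReal.ofReal (V1 * (V2 * 2) * (δ * l)) := by
        rw [← ENNReal.ofReal_mul (by positivity)]
        congr 1
        ring

theorem Fm_le {n : ℕ} (g : E n → ℂ) (μ : Measure (E n)) (ξ : E n) :
    ‖Fm g μ ξ‖ₑ ≤ ∫⁻ x, ‖g x‖ₑ ∂μ := by
  unfold Fm
  refine (enorm_integral_le_lintegral_enorm _).trans (le_of_eq ?_)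
  refine lintegral_congr fun x => ?_
  rw [enorm_mul]
  have : ‖cexp (((2 * Real.pi * ⟪x, ξ⟫ : ℝ) : ℂ) * I)‖ₑ = 1 := by
    rw [← ofReal_norm, Complex.norm_exp_ofReal_mul_I, ENNReal.ofReal_one]
  rw [this, mul_one]

theorem en_two {n : ℕ} (q g : E n → ℂ) (μ : Measure (E n)) (W : Set (E n)) (B : ℝ) (_hB : 0 ≤ B)
    (hq : ∀ ξ, ‖q ξ‖ ≤ B) (hW : ∀ ξ, q ξ ≠ 0 → ξ ∈ W) :
    En q g μ ≤ ENNReal.ofReal (B ^ 2) * ∫⁻ ξ in W, ‖Fm g μ ξ‖ₑ ^ (2 : ℝ) := by
  rw [← lintegral_const_mul' _ _ ENNReal.ofReal_ne_top]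
  refine le_trans ?_ (lintegral_indicator_le _ W)
  unfold En
  refine lintegral_mono fun ξ => ?_
  by_cases h : ξ ∈ W
  · rw [indicator_of_mem h, enorm_mul, ENNReal.mul_rpow_of_nonneg _ _ (by norm_num)]
    gcongr
    rw [← ofReal_norm, ENNReal.ofReal_rpow_of_nonneg (norm_nonneg _) (by norm_num)]
    apply ENNReal.ofReal_le_ofReal
    rw [Real.rpow_two]
    exact pow_le_pow_left₀ (norm_nonneg _) (hq ξ) 2
  · have : q ξ = 0 := by
      by_contra h0
      exact h (hW ξ h0)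
    rw [this, zero_mul, enorm_zero, ENNReal.zero_rpow_of_pos (by norm_num)]
    exact zero_le

theorem en_one {n : ℕ} (q g : E n → ℂ) (μ : Measure (E n)) (S : Set (E n)) (B v : ℝ) (hB : 0 ≤ B)
    (hq : ∀ ξ, ‖q ξ‖ ≤ B) (hS : ∀ ξ, q ξ ≠ 0 → ξ ∈ S)
    (hv : (volume : Measure (E n)) S ≤ ENNReal.ofReal v) :
    En q g μ ≤ ENNReal.ofReal (B ^ 2 * v) * (∫⁻ x, ‖g x‖ₑ ∂μ) ^ (2 : ℝ) := by
  refine (en_two q g μ S B hB hq hS).trans ?_
  calc ENNReal.ofReal (B ^ 2) * ∫⁻ ξ in S, ‖Fm g μ ξ‖ₑ ^ (2 : ℝ)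
      ≤ ENNReal.ofReal (B ^ 2) * ∫⁻ _ in S, (∫⁻ x, ‖g x‖ₑ ∂μ) ^ (2 : ℝ) := by
        gcongr with ξ
        exact Fm_le g μ ξ
    _ = ENNReal.ofReal (B ^ 2) * ((∫⁻ x, ‖g x‖ₑ ∂μ) ^ (2 : ℝ) * volume S) := by
        rw [setLIntegral_const]
    _ ≤ ENNReal.ofReal (B ^ 2) * ((∫⁻ x, ‖g x‖ₑ ∂μ) ^ (2 : ℝ) * ENNReal.ofReal v) := by
        gcongr
    _ = ENNReal.ofReal (B ^ 2 * v) * (∫⁻ x, ‖g x‖ₑ ∂μ) ^ (2 : ℝ) := by
        rw [ENNReal.ofReal_mul (by positivity)]
        ring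

theorem theta_bdd {θ : ℝ → ℝ} (hθ : Cut θ) : ∃ B : ℝ, 0 < B ∧ ∀ s, 0 ≤ s → |θ s| ≤ B := by
  obtain ⟨M, hM⟩ := (isCompact_Icc (a := (0 : ℝ)) (b := 2)).exists_bound_of_continuousOn
    hθ.1.continuous.continuousOn
  refine ⟨max M 1, by positivity, fun s hs => ?_⟩
  rcases le_or_gt s 2 with h | h
  · exact (hM s ⟨hs, h⟩).trans (le_max_left _ _)
  · rw [hθ.2 s h.le, abs_zero]
    positivity

theorem t_bs (m : ℕ) (hm : 2 ≤ m) : S_GA m → S_BS m := by
  rintro ⟨C0, hC0, hGA⟩ ψ θ hψ hθ β K₀ hβ0 hβ1 hK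
  obtain ⟨M, hM, hmu⟩ := mu_bdd hψ
  obtain ⟨B, hB, hth⟩ := theta_bdd hθ
  obtain ⟨V1, hV1, hsl⟩ := slab m hm
  obtain ⟨V2, hV2, hsh⟩ := shell (m + 1) (by omega)
  set D : ℝ := M * (1 + B) with hD
  have hDp : 0 < D := by positivity
  have hD2 : 0 < D ^ 2 := by positivity
  refine ⟨D ^ 2 * (V1 * 2 + V2 * 2 + C0 * K₀ * 2), by positivity, fun ν hν => ⟨?_, ?_⟩⟩
  · intro A l hA g hg
    obtain ⟨hA4, hl0, hl8, hAl, hor⟩ := hA
    have hA0 : 0 < A := by linarith
    have hq : ∀ ξ : E (m + 1), ‖pm m ψ θ A l ξ‖ ≤ D := by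
      intro ξ
      unfold pm
      rw [norm_mul, Complex.norm_real, Real.norm_eq_abs, hD]
      refine mul_le_mul (hmu _ _ _ _) ((hth _ (by positivity)).trans (by linarith))
        (abs_nonneg _) hM.le
    have hsupp : ∀ ξ : E (m + 1), pm m ψ θ A l ξ ≠ 0 → 1 - 2 / A ≤ ‖ξ‖ ^ 2 ∧ ‖ξ‖ ^ 2 ≤ 1 ∧
        ‖pr m ξ‖ ≤ 2 * l ∧ (l / 2 ≤ ‖pr m ξ‖ ∨ A * l ^ 2 ≤ 16) := by
      intro ξ hξ
      unfold pm at hξ
      have h1 : mu ψ A 1 ξ ≠ 0 := left_ne_zero_of_mul hξ
      have h2 : θ (‖pr m ξ‖ ^ 2 / l ^ 2) ≠ 0 := by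
        intro h0
        apply right_ne_zero_of_mul hξ
        rw [h0, Complex.ofReal_zero]
      obtain ⟨h3, h4⟩ := mu_supp hψ hA0 one_pos ξ h1
      have hApos : 0 < 1 / (2 * A) := by positivity
      refine ⟨by linarith, by linarith, ?_, ?_⟩
      · have h5 : ‖pr m ξ‖ ^ 2 / l ^ 2 < 2 := by
          by_contra h6
          exact h2 (hθ.2 _ (not_lt.mp h6))
        rw [div_lt_iff₀ (by positivity)] at h5
        nlinarith [norm_nonneg (pr m ξ), sq_nonneg l]
      · rcases hor with h6 | h6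
        · left
          have h5 : 1 / 4 ≤ ‖pr m ξ‖ ^ 2 / l ^ 2 := by
            by_contra h7
            exact h2 (h6 _ (not_le.mp h7))
          rw [le_div_iff₀ (by positivity)] at h5
          nlinarith [norm_nonneg (pr m ξ), sq_nonneg l]
        · right; exact h6
    refine ⟨?_, ?_⟩
    · refine (en_one (pm m ψ θ A l) g (cyl m ν) _ D (V1 * (2 / A * l)) hDp.le hq
        (fun ξ hξ => ?_) (hsl (2 / A) l (by positivity) hl0.le)).trans ?_
      · obtain ⟨h1, h2, h3, -⟩ := hsupp ξ hξ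
        exact ⟨h1, h2, h3⟩
      · refine mul_le_mul_left (ENNReal.ofReal_le_ofReal ?_) _
        have : D ^ 2 * (V1 * (2 / A * l)) = D ^ 2 * (V1 * 2) * (l / A) := by ring
        rw [this]
        refine mul_le_mul_of_nonneg_right ?_ (by positivity)
        refine mul_le_mul_of_nonneg_left ?_ hD2.le
        have : 0 ≤ C0 * K₀ * 2 := by positivity
        linarith
    · have hρ : (1 : ℝ) ≤ A / 2 := by linarith
      obtain ⟨hg1, -⟩ := hGA β K₀ hβ0 hβ1 hK ν hν (A / 2) hρ g hg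
      have hg2 := hg1 l hl0 (by linarith)
      refine (en_two (pm m ψ θ A l) g (cyl m ν) D hDp.le hq (W := {ξ : E (m + 1) |
        |‖ξ‖ ^ 2 - 1| ≤ 1 / (A / 2) ∧ ‖pr m ξ‖ ≤ 2 * l ∧
        (l / 2 ≤ ‖pr m ξ‖ ∨ A / 2 * l ^ 2 ≤ 16)}) (fun ξ hξ => ?_)).trans ?_
      · obtain ⟨h1, h2, h3, h4⟩ := hsupp ξ hξ
        refine ⟨?_, h3, ?_⟩
        · have : 1 / (A / 2) = 2 / A := by field_simp
          rw [this, abs_le]
          have : 0 < 2 / A := by positivity
          constructor <;> linarith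
        · rcases h4 with h5 | h5
          · left; exact h5
          · right
            have : 0 ≤ A * l ^ 2 := by positivity
            linarith
      · refine (mul_le_mul_right hg2 _).trans ?_
        rw [← mul_assoc, ← ENNReal.ofReal_mul (by positivity)]
        refine mul_le_mul_left (ENNReal.ofReal_le_ofReal ?_) _
        have hAl0 : 0 < A * l := by positivity
        have h5 : (min (1 / (A / 2 * l)) l) ^ (1 - β) ≤ 2 * (A * l) ^ (-(1 - β)) := by
          calc (min (1 / (A / 2 * l)) l) ^ (1 - β) ≤ (2 * (A * l)⁻¹) ^ (1 - β) := by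
                apply Real.rpow_le_rpow (by positivity) _ (by linarith)
                refine (min_le_left _ _).trans (le_of_eq ?_)
                field_simp
            _ = 2 ^ (1 - β) * (A * l) ^ (-(1 - β)) := by
                rw [Real.mul_rpow (by norm_num) (by positivity), Real.inv_rpow hAl0.le,
                  Real.rpow_neg hAl0.le]
            _ ≤ 2 * (A * l) ^ (-(1 - β)) := by
                gcongr
                calc (2 : ℝ) ^ (1 - β) ≤ 2 ^ (1 : ℝ) :=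
                      Real.rpow_le_rpow_of_exponent_le (by norm_num) (by linarith)
                  _ = 2 := Real.rpow_one 2
        calc D ^ 2 * (C0 * K₀ * min (1 / (A / 2 * l)) l ^ (1 - β))
            ≤ D ^ 2 * (C0 * K₀ * (2 * (A * l) ^ (-(1 - β)))) := by gcongr
          _ = D ^ 2 * (C0 * K₀ * 2) * (A * l) ^ (-(1 - β)) := by ring
          _ ≤ D ^ 2 * (V1 * 2 + V2 * 2 + C0 * K₀ * 2) * (A * l) ^ (-(1 - β)) := by
              gcongr
              linarith
  · intro hθ1 A hA4 g hg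
    have hA0 : 0 < A := by linarith
    have hq : ∀ ξ : E (m + 1), ‖hi m ψ θ A ξ‖ ≤ D := by
      intro ξ
      unfold hi
      rw [norm_mul, Complex.norm_real, Real.norm_eq_abs, hD]
      refine mul_le_mul (hmu _ _ _ _) ?_ (abs_nonneg _) hM.le
      refine (abs_sub _ _).trans ?_
      rw [abs_one]
      have := hth (64 * ‖pr m ξ‖ ^ 2) (by positivity)
      linarith
    have hsupp : ∀ ξ : E (m + 1), hi m ψ θ A ξ ≠ 0 → 1 - 2 / A ≤ ‖ξ‖ ^ 2 ∧ ‖ξ‖ ^ 2 ≤ 1 ∧
        1 / 16 ≤ ‖pr m ξ‖ := by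
      intro ξ hξ
      unfold hi at hξ
      have h1 : mu ψ A 1 ξ ≠ 0 := left_ne_zero_of_mul hξ
      have h2 : θ (64 * ‖pr m ξ‖ ^ 2) ≠ 1 := by
        intro h0
        apply right_ne_zero_of_mul hξ
        rw [h0]
        simp
      obtain ⟨h3, h4⟩ := mu_supp hψ hA0 one_pos ξ h1
      have hApos : 0 < 1 / (2 * A) := by positivity
      refine ⟨by linarith, by linarith, ?_⟩
      have h5 : 1 < 64 * ‖pr m ξ‖ ^ 2 := by
        by_contra h6
        exact h2 (hθ1 _ (not_lt.mp h6))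
      nlinarith [norm_nonneg (pr m ξ)]
    refine ⟨?_, ?_⟩
    · refine (en_one (hi m ψ θ A) g (cyl m ν) _ D (V2 * (2 / A)) hDp.le hq
        (fun ξ hξ => ?_) (hsh 1 (2 / A) le_rfl (by positivity))).trans ?_
      · obtain ⟨h1, h2, h3⟩ := hsupp ξ hξ
        exact ⟨h1, h2⟩
      · refine mul_le_mul_left (ENNReal.ofReal_le_ofReal ?_) _
        have : D ^ 2 * (V2 * (2 / A)) = D ^ 2 * (V2 * 2) / A := by ring
        rw [this]
        refine div_le_div_of_nonneg_right ?_ hA0.le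
        refine mul_le_mul_of_nonneg_left ?_ hD2.le
        have : 0 ≤ C0 * K₀ * 2 := by positivity
        linarith
    · have hρ : (1 : ℝ) ≤ A / 2 := by linarith
      obtain ⟨-, hg2⟩ := hGA β K₀ hβ0 hβ1 hK ν hν (A / 2) hρ g hg
      refine (en_two (hi m ψ θ A) g (cyl m ν) D hDp.le hq (W := {ξ : E (m + 1) |
        |‖ξ‖ ^ 2 - 1| ≤ 1 / (A / 2) ∧ 1 / 16 ≤ ‖pr m ξ‖}) (fun ξ hξ => ?_)).trans ?_
      · obtain ⟨h1, h2, h3⟩ := hsupp ξ hξ
        refine ⟨?_, h3⟩
        have : 1 / (A / 2) = 2 / A := by field_simp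
        rw [this, abs_le]
        have : 0 < 2 / A := by positivity
        constructor <;> linarith
      · refine (mul_le_mul_right hg2 _).trans ?_
        rw [← mul_assoc, ← ENNReal.ofReal_mul (by positivity)]
        refine mul_le_mul_left (ENNReal.ofReal_le_ofReal ?_) _
        have h5 : (A / 2) ^ (-(1 - β)) ≤ 2 * A ^ (-(1 - β)) := by
          calc (A / 2) ^ (-(1 - β)) = 2 ^ (1 - β) * A ^ (-(1 - β)) := by
                rw [Real.div_rpow hA0.le (by norm_num), Real.rpow_neg (by norm_num : (0:ℝ) ≤ 2),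
                  div_inv_eq_mul]
                ring
            _ ≤ 2 * A ^ (-(1 - β)) := by
                gcongr
                calc (2 : ℝ) ^ (1 - β) ≤ 2 ^ (1 : ℝ) :=
                      Real.rpow_le_rpow_of_exponent_le (by norm_num) (by linarith)
                  _ = 2 := Real.rpow_one 2
        calc D ^ 2 * (C0 * K₀ * (A / 2) ^ (-(1 - β)))
            ≤ D ^ 2 * (C0 * K₀ * (2 * A ^ (-(1 - β)))) := by gcongr
          _ = D ^ 2 * (C0 * K₀ * 2) * A ^ (-(1 - β)) := by ring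
          _ ≤ D ^ 2 * (V1 * 2 + V2 * 2 + C0 * K₀ * 2) * A ^ (-(1 - β)) := by
              gcongr
              linarith

end Pool.Agent.Y488.FD
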